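import Pool.Agent.H135R2.Pin.CompRR

set_option autoImplicit false

namespace Pool.Agent.Results.MP_f2128c_co.LinkedInComponent

open Pool.Agent.H135R2.Planar Pool.Agent.H135R2.Pin

/-- For every finite simple graph `G`, every redundantly rigid component `R` of `G` (a maximal
redundantly rigid subgraph) and all vertices `x, y` of `R`: the pair `{x, y}` is globally linked in
`G` (in the plane) if and only if it is globally linked in `R` regarded as a graph in its own
right. -/
theorem result {V : Type*} [Finite V] (G : SimpleGraph V) (R : G.Subgraph)
    (hR : IsRedundantlyRigidComponent G R) (x y : V) (hx : x ∈ R.verts) (hy : y ∈ R.verts) :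
    GloballyLinked G x y ↔ GloballyLinked R.coe ⟨x, hx⟩ ⟨y, hy⟩ := by
  classical
  have := Fintype.ofFinite V
  exact ⟨main_rr G R hR hx hy, main_rr_conv G R hx hy⟩

end Pool.Agent.Results.MP_f2128c_co.LinkedInComponent
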